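import Pool.Agent.H.MP_216434_al.Fin

set_option autoImplicit false

namespace Pool.Agent.Results.MP_216434_al.No

open Filter Pool.Agent.H.MP_216434_al

/-- Number of characteristic subgroups of (finite) index at most `n`. -/
noncomputable def sCh (G : Type) [Group G] (n : ℕ) : ℕ :=
  {N : Subgroup G | N.Characteristic ∧ N.index ≠ 0 ∧ N.index ≤ n}.ncard

/-- Number of normal subgroups of (finite) index at most `n`. -/
noncomputable def sNor (G : Type) [Group G] (n : ℕ) : ℕ :=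
  {N : Subgroup G | N.Normal ∧ N.index ≠ 0 ∧ N.index ≤ n}.ncard

/-- `g` has growth type `f`. -/
def HasType (g : ℕ → ℕ) (f : ℕ → ℝ) : Prop :=
  ∃ a b : ℝ, 0 < a ∧ 0 < b ∧ (∀ n, 1 ≤ n → (g n : ℝ) ≤ f n ^ a) ∧
    ∃ᶠ n in atTop, f n ^ b ≤ (g n : ℝ)

theorem result : ∃ (G : Type) (_ : Group G), Group.FG G ∧
    Finite (MulAut G ⧸ (MulAut.conj : G →* MulAut G).range) ∧
    (∀ n, {N : Subgroup G | N.Normal ∧ N.index ≠ 0 ∧ N.index ≤ n}.Finite) ∧
    (∀ r : ℝ, 0 < r → ∀ᶠ n in atTop, (sCh G n : ℝ) < (sNor G n : ℝ) ^ r) ∧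
    ¬ ∃ f : ℕ → ℝ, (∀ n, 0 ≤ f n) ∧ HasType (sCh G) f ∧ HasType (sNor G) f := by
  obtain ⟨G, _, h1, h2, key⟩ := exists_G
  refine ⟨G, inferInstance, h1, h2.fin, fun n => fin_normal h1 n, key, ?_⟩
  rintro ⟨f, f0, ⟨-, b, -, b0, -, h1⟩, ⟨a, -, a0, -, h2, -⟩⟩
  obtain ⟨n, n1, n2, n3⟩ := (h1.and_eventually
    ((key (b / a) (by positivity)).and (eventually_ge_atTop 1))).exists
  have := Real.rpow_le_rpow (by positivity) (h2 n n3) (by positivity : 0 ≤ b / a)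
  rw [← Real.rpow_mul (f0 n), mul_div_cancel₀ _ a0.ne'] at this
  exact absurd (n2.trans_le (this.trans n1)) (lt_irrefl _)

end Pool.Agent.Results.MP_216434_al.No
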